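import Pool.Agent.Helper23.SP.Basic

set_option autoImplicit false

/-!
# SP-G: the first nonzero level decides the sign
-/

namespace Pool.Agent.Helper59.SP

open Finset
open Pool.Agent.Helper23.SP

lemma sign_mul_add {c a z : ℤ} (ha : a ≠ 0) (hz : |z| < c) :
    SignType.sign (c * a + z) = SignType.sign a := by
  have h1 := (abs_lt.1 hz).1
  have h2 := (abs_lt.1 hz).2
  have hc : 0 < c := lt_of_le_of_lt (abs_nonneg z) hz
  rcases lt_or_gt_of_ne ha with h | h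
  · rw [sign_neg h, sign_neg]
    nlinarith
  · rw [sign_pos h, sign_pos]
    nlinarith

lemma sign_horner (Y : ℕ) : ∀ (k : ℕ) (Z : Fin k → ℤ) (_ : ∀ i, |Z i| < Y) (i0 : Fin k)
    (_ : ∀ i, i < i0 → Z i = 0) (_ : Z i0 ≠ 0),
    SignType.sign (∑ r : Fin k, (Y : ℤ) ^ (k - 1 - r.val) * Z r) = SignType.sign (Z i0) := by
  intro k
  induction k with
  | zero => intro Z _ i0; exact i0.elim0
  | succ k ih =>
    intro Z hZ i0 h0 hi
    rw [Fin.sum_univ_castSucc]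
    have h1 : ∀ r : Fin k, (Y : ℤ) ^ (k + 1 - 1 - (Fin.castSucc r).val) * Z (Fin.castSucc r) =
        Y * ((Y : ℤ) ^ (k - 1 - r.val) * Z (Fin.castSucc r)) := by
      intro r
      have h2 : k + 1 - 1 - (Fin.castSucc r).val = (k - 1 - r.val) + 1 := by
        have := r.isLt
        simp only [Fin.val_castSucc]
        omega
      rw [h2, pow_succ]
      ring
    simp only [h1, ← mul_sum]
    have h3 : k + 1 - 1 - (Fin.last k).val = 0 := by simp
    rw [h3, pow_zero, one_mul]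
    induction i0 using Fin.lastCases with
    | last =>
      have h4 : ∑ r : Fin k, (Y : ℤ) ^ (k - 1 - r.val) * Z (Fin.castSucc r) = 0 :=
        sum_eq_zero fun r _ => by rw [h0 _ (Fin.castSucc_lt_last r), mul_zero]
      rw [h4, mul_zero, zero_add]
    | cast i =>
      have h4 := ih (fun r => Z (Fin.castSucc r)) (fun r => hZ _) i
        (fun r hr => h0 _ (Fin.castSucc_lt_castSucc_iff.2 hr)) hi
      rw [← h4]
      refine sign_mul_add ?_ (hZ _)
      intro h5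
      rw [h5, sign_zero] at h4
      exact hi (sign_eq_zero_iff.1 h4.symm)

section

variable {El : Type} [Fintype El] {k b U : ℕ} [NeZero b]

/-- the sum of the hash values on level `i` -/
noncomputable def Zs (mu : Fin U → ℕ) (γ : El → ℤ) (ω : Om El k b U) (i : Fin k) : ℤ :=
  ∑ e, γ e * (mu (g i ω e) : ℤ)

lemma Zs_eq (mu : Fin U → ℕ) (γ : El → ℤ) (ω : Om El k b U) (i : Fin k) :
    Zs mu γ ω i = ∑ u, (∑ e ∈ univ.filter (fun e => g i ω e = u), γ e) * (mu u : ℤ) := by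
  unfold Zs
  rw [← Finset.sum_fiberwise (s := univ) (g := fun e => g i ω e)]
  refine sum_congr rfl fun u _ => ?_
  rw [sum_mul]
  refine sum_congr rfl fun e he => ?_
  rw [(mem_filter.1 he).2]

lemma Zs_abs_le {M N : ℕ} {mu : Fin U → ℕ} (hM : ∀ u, mu u ≤ M) {γ : El → ℤ}
    (hN : ∑ e, |γ e| ≤ N) (ω : Om El k b U) (i : Fin k) : |Zs mu γ ω i| ≤ N * M := by
  unfold Zs
  calc |∑ e, γ e * (mu (g i ω e) : ℤ)| ≤ ∑ e, |γ e * (mu (g i ω e) : ℤ)| := abs_sum_le_sum_abs _ _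
    _ ≤ ∑ e, |γ e| * (M : ℤ) := by
        refine sum_le_sum fun e _ => ?_
        rw [abs_mul]
        refine mul_le_mul_of_nonneg_left ?_ (abs_nonneg _)
        rw [abs_of_nonneg (by positivity)]
        exact_mod_cast hM _
    _ = (∑ e, |γ e|) * (M : ℤ) := by rw [sum_mul]
    _ ≤ N * M := mul_le_mul_of_nonneg_right hN (by positivity)

lemma Zs_ne_zero {N s : ℕ} {mu : Fin U → ℕ} (hmu : Free mu s N) {γ : El → ℤ}
    (hs : (supp γ).card ≤ s) (hN : ∑ e, |γ e| ≤ N) {ω : Om El k b U} {i : Fin k} {u : Fin U}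
    (h : ∑ e ∈ univ.filter (fun e => g i ω e = u), γ e ≠ 0) : Zs mu γ ω i ≠ 0 := by
  intro h0
  rw [Zs_eq] at h0
  refine h (hmu (fun u => ∑ e ∈ univ.filter (fun e => g i ω e = u), γ e) ?_ ?_ h0 u)
  · classical
    refine le_trans (card_le_card ?_) ((card_image_le (s := supp γ) (f := fun e => g i ω e)).trans hs)
    intro u hu
    rw [mem_supp] at hu
    obtain ⟨e, he, hne⟩ := exists_ne_zero_of_sum_ne_zero hu
    exact mem_image.2 ⟨e, mem_supp.2 hne, (mem_filter.1 he).2⟩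
  · intro u
    refine (abs_sum_le_sum_abs _ _).trans (le_trans ?_ hN)
    exact sum_le_univ_sum_of_nonneg fun e => abs_nonneg _

lemma Zs_congr (mu : Fin U → ℕ) {γ : El → ℤ} {ω ω' : Om El k b U} {i : Fin k}
    (h : ∀ e ∈ supp γ, g i ω e = g i ω' e) : Zs mu γ ω i = Zs mu γ ω' i := by
  unfold Zs
  refine sum_congr rfl fun e _ => ?_
  by_cases he : γ e = 0
  · rw [he, zero_mul, zero_mul]
  · rw [h e (mem_supp.2 he)]

lemma total_eq (L Y : ℕ) (mu : Fin U → ℕ) (κ : ℤ) (γ : El → ℤ) (ω : Om El k b U)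
    (tiny : El → ℤ) : κ + ∑ e, γ e * value L Y mu ω tiny e =
      L * (∑ r : Fin k, (Y : ℤ) ^ (k - 1 - r.val) * Zs mu γ ω r) + (κ + ∑ e, γ e * tiny e) := by
  have h1 : ∑ r : Fin k, (Y : ℤ) ^ (k - 1 - r.val) * Zs mu γ ω r =
      ∑ e, γ e * ∑ r : Fin k, (Y : ℤ) ^ (k - 1 - r.val) * (mu (g r ω e) : ℤ) := by
    unfold Zs
    simp only [mul_sum]
    rw [sum_comm]
    refine sum_congr rfl fun e _ => sum_congr rfl fun r _ => ?_
    ring
  have h2 : ∑ e, γ e * value L Y mu ω tiny e =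
      L * (∑ e, γ e * ∑ r : Fin k, (Y : ℤ) ^ (k - 1 - r.val) * (mu (g r ω e) : ℤ)) +
        ∑ e, γ e * tiny e := by
    rw [mul_sum, ← sum_add_distrib]
    refine sum_congr rfl fun e _ => ?_
    unfold value
    ring
  rw [h1, h2]
  ring

lemma sign_total {L Y M N : ℕ} {mu : Fin U → ℕ} (hM : ∀ u, mu u ≤ M)
    (hY : N * M < Y) {κ : ℤ} {γ : El → ℤ} (hN : ∑ e, |γ e| ≤ N)
    (hL : |κ| + N < L) {ω : Om El k b U} {i0 : Fin k} (h0 : ∀ i, i < i0 → Zs mu γ ω i = 0)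
    (hi : Zs mu γ ω i0 ≠ 0) {tiny : El → ℤ} (ht : ∀ e, |tiny e| ≤ 1) :
    SignType.sign (κ + ∑ e, γ e * value L Y mu ω tiny e) = SignType.sign (Zs mu γ ω i0) := by
  have h1 := sign_horner Y k (Zs mu γ ω)
    (fun i => lt_of_le_of_lt (Zs_abs_le hM hN ω i) (by exact_mod_cast hY)) i0 h0 hi
  rw [total_eq, ← h1]
  refine sign_mul_add ?_ ?_
  · intro h5
    rw [h5, sign_zero] at h1
    exact hi (sign_eq_zero_iff.1 h1.symm)
  · refine lt_of_le_of_lt ?_ hL
    refine (abs_add_le _ _).trans (add_le_add le_rfl ?_)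
    calc |∑ e, γ e * tiny e| ≤ ∑ e, |γ e * tiny e| := abs_sum_le_sum_abs _ _
      _ ≤ ∑ e, |γ e| := sum_le_sum fun e _ => by
          rw [abs_mul]
          exact mul_le_of_le_one_right (abs_nonneg _) (ht e)
      _ ≤ N := hN

end

/-- SP-G. -/
theorem sign_part {El : Type} [Fintype El] {k b U : ℕ} [NeZero b] {L Y M N s : ℕ}
    {mu : Fin U → ℕ} (hmu : Free mu s N) (hM : ∀ u, mu u ≤ M) (hY : N * M < Y) {κ : ℤ}
    {γ : El → ℤ} (hs : (supp γ).card ≤ s) (hN : ∑ e, |γ e| ≤ N) (hL : |κ| + N < L)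
    {ω ω' : Om El k b U} {r : ℕ} (hP : ¬ Pass γ ω r)
    (hg : ∀ i : Fin k, i.val < r → ∀ e ∈ supp γ, g i ω e = g i ω' e) {tiny tiny' : El → ℤ}
    (ht : ∀ e, |tiny e| ≤ 1) (ht' : ∀ e, |tiny' e| ≤ 1) :
    SignType.sign (κ + ∑ e, γ e * value L Y mu ω tiny e) =
      SignType.sign (κ + ∑ e, γ e * value L Y mu ω' tiny' e) := by
  classical
  unfold Pass at hP
  push Not at hP
  obtain ⟨i, hir, u, hu⟩ := hP
  have hne : Zs mu γ ω i ≠ 0 := Zs_ne_zero hmu hs hN hu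
  have hex : ∃ j : ℕ, ∃ hj : j < k, Zs mu γ ω ⟨j, hj⟩ ≠ 0 := ⟨i.val, i.isLt, hne⟩
  obtain ⟨hj, hZ⟩ := Nat.find_spec hex
  have hmin : Nat.find hex ≤ i.val := Nat.find_min' hex ⟨i.isLt, hne⟩
  have h0 : ∀ j : Fin k, j < ⟨Nat.find hex, hj⟩ → Zs mu γ ω j = 0 := by
    intro j hj'
    by_contra hcon
    exact Nat.find_min hex (m := j.val) hj' ⟨j.isLt, hcon⟩
  have hc : ∀ j : Fin k, j.val < r → Zs mu γ ω j = Zs mu γ ω' j := fun j hjr =>
    Zs_congr mu (hg j hjr)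
  have hr0 : Nat.find hex < r := lt_of_le_of_lt hmin hir
  rw [sign_total hM hY hN hL h0 hZ ht,
    sign_total (ω := ω') (i0 := ⟨Nat.find hex, hj⟩) hM hY hN hL ?_ ?_ ht', hc _ hr0]
  · intro j hj'
    rw [← hc j (lt_trans hj' hr0)]
    exact h0 j hj'
  · rw [← hc _ hr0]
    exact hZ

end Pool.Agent.Helper59.SP
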